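import Mathlib
import Pool.Agent.TOKSN.End

/-!
# Totally odd K4-subdivisions in 4-connected graphs with two disjoint odd cycles
-/

set_option autoImplicit false

namespace Pool.Agent.Results.MP_2394d2_co.TotallyOddK4

/-- Let `G` be a finite simple graph with more than four vertices that stays connected after the
deletion of any set of fewer than four vertices, and suppose that `G` has two odd cycles without a
common vertex. Then there are four distinct branch vertices `a 0, a 1, a 2, a 3` and six paths
`P i j` (`i < j`), where `P i j` joins `a i` to `a j` and has odd length, such that a vertex of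
`P i j` different from `a i` and `a j` is not a branch vertex and does not lie on any other of the
six paths. -/
theorem result (V : Type) [Fintype V] (G : SimpleGraph V)
    (hcard : 4 < Fintype.card V)
    (hconn : ∀ S : Finset V, S.card < 4 → (G.induce {v | v ∉ S}).Connected)
    (hodd : ∃ (u v : V) (c : G.Walk u u) (d : G.Walk v v),
      c.IsCycle ∧ d.IsCycle ∧ Odd c.length ∧ Odd d.length ∧ ∀ x, ¬ (x ∈ c.support ∧ x ∈ d.support)) :
    ∃ (a : Fin 4 → V) (P : ∀ i j : Fin 4, G.Walk (a i) (a j)),
      (∀ i j, i ≠ j → a i ≠ a j) ∧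
      (∀ i j, i < j → (P i j).IsPath ∧ Odd (P i j).length) ∧
      (∀ i j, i < j → ∀ x ∈ (P i j).support, x ≠ a i → x ≠ a j →
        (∀ m, x ≠ a m) ∧ ∀ k l, k < l → (k ≠ i ∨ l ≠ j) → x ∉ (P k l).support) := by
  classical
  have h4 : ∀ S : Finset V, S.card ≤ 3 → (G.induce ((↑S : Set V)ᶜ)).Connected := by
    intro S hS
    have h := hconn S (by omega)
    have he : {v | v ∉ S} = ((↑S : Set V)ᶜ) := by
      ext v
      simp
    rw [he] at h
    exact h
  obtain ⟨u, v, c, d, hc, hd, h1, h2, h3⟩ := hodd
  obtain ⟨a, P, ha, hP, hend, hdis⟩ := Pool.Agent.TOKSN.main G (by omega) h4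
    ⟨u, v, c, d, hc, hd, h1, h2, fun x hx hx' => h3 x ⟨hx, hx'⟩⟩
  refine ⟨a, P, fun i j hij h => hij (ha h), hP, ?_⟩
  intro i j hij x hx hxi hxj
  have hbr : ∀ m, x ≠ a m := by
    intro m hm
    rcases hend i j m hij (by rw [← hm]; exact hx) with h | h
    · exact hxi (by rw [hm, h])
    · exact hxj (by rw [hm, h])
  refine ⟨hbr, ?_⟩
  intro k l hkl hne hx'
  obtain ⟨m, hm⟩ := hdis i j k l hij hkl (by
    intro h
    simp only [Prod.mk.injEq] at h
    rcases hne with h' | h'
    · exact h' h.1.symm
    · exact h' h.2.symm) x hx hx'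
  exact hbr m hm

end Pool.Agent.Results.MP_2394d2_co.TotallyOddK4
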